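import Pool.Agent.H80.JE.Targets
import Pool.Agent.H80.JD.Targets

set_option autoImplicit false

namespace Pool.Agent.H78.JE

open Finset Filter Topology Pool.Agent.H80.JD Pool.Agent.H80.JE

theorem phi_zero : Φ 0 = 0 := by
  have : MeasureTheory.NullSingletonClass (ProbabilityTheory.gaussianReal 0 1) :=
    ProbabilityTheory.nullSingletonClass_gaussianReal one_ne_zero
  unfold Φ
  rw [neg_zero, Set.Icc_self, MeasureTheory.measureReal_def, MeasureTheory.measure_singleton]
  rfl

theorem phi_nonneg (t : ℝ) : 0 ≤ Φ t := MeasureTheory.measureReal_nonneg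

theorem cu1 (hGL : T_GL) : T_CU1 := by
  intro c ε hc hε
  have key : ∀ τ : ℝ, 0 < τ →
      1 - (Real.sqrt c - (ph τ - τ * (1 - Φ τ))) / τ = Φ τ + (ph τ - Real.sqrt c) / τ := by
    intro τ hτ
    field_simp
    ring
  have hpi : 0 < 2 / Real.pi := by positivity
  by_cases hcp : c < 2 / Real.pi
  · have h1 : 1 < 2 / (Real.pi * c) := by
      rw [lt_div_iff₀ (by positivity), one_mul]
      rw [lt_div_iff₀ Real.pi_pos] at hcp
      linarith
    have hlog : 0 < Real.log (2 / (Real.pi * c)) := Real.log_pos h1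
    refine ⟨Real.sqrt (Real.log (2 / (Real.pi * c))), Real.sqrt_pos.2 hlog, ?_⟩
    rw [key _ (Real.sqrt_pos.2 hlog)]
    have hph : ph (Real.sqrt (Real.log (2 / (Real.pi * c)))) = Real.sqrt c := by
      unfold ph
      rw [Real.sq_sqrt hlog.le]
      have h2 : Real.exp (-(Real.log (2 / (Real.pi * c)) / 2)) = Real.sqrt (Real.pi * c / 2) := by
        rw [Real.exp_neg, Real.exp_half, Real.exp_log (by positivity), ← Real.sqrt_inv]
        congr 1
        rw [inv_div]
      rw [h2, ← Real.sqrt_mul hpi.le]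
      congr 1
      have := Real.pi_pos
      field_simp
    rw [hph, sub_self, zero_div, add_zero]
    unfold curve
    linarith
  · rw [not_lt] at hcp
    refine ⟨ε / 2, by positivity, ?_⟩
    rw [key _ (by positivity)]
    have h1 : ph (ε / 2) ≤ Real.sqrt c := by
      unfold ph
      have h2 : Real.exp (-((ε / 2) ^ 2 / 2)) ≤ 1 := by
        rw [Real.exp_le_one_iff]
        have : 0 ≤ (ε / 2) ^ 2 / 2 := by positivity
        linarith
      calc Real.sqrt (2 / Real.pi) * Real.exp (-((ε / 2) ^ 2 / 2))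
          ≤ Real.sqrt (2 / Real.pi) * 1 := mul_le_mul_of_nonneg_left h2 (Real.sqrt_nonneg _)
        _ = Real.sqrt (2 / Real.pi) := mul_one _
        _ ≤ Real.sqrt c := Real.sqrt_le_sqrt hcp
    have h3 : (ph (ε / 2) - Real.sqrt c) / (ε / 2) ≤ 0 :=
      div_nonpos_of_nonpos_of_nonneg (by linarith) (by positivity)
    have h4 := hGL.1 0 (ε / 2) le_rfl (by positivity)
    rw [phi_zero] at h4
    have h5 : 0 ≤ curve c := phi_nonneg _
    linarith

end Pool.Agent.H78.JE
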